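import Pool.Agent.H458.AU.Def

/-!
# Project AU (helper458), part TAIL (helper294)

The discriminants divisible by the square of a prime which is not small.
-/

set_option autoImplicit false
set_option linter.all false

open Polynomial NumberField IsDedekindDomain
open scoped Classical

namespace Pool.Agent.H294.AU458

open Pool.Agent.N352.PJ (dd pol dis Dy D2)
open Pool.Agent.N352.PF (dg Bal nv rv Bz Bx S_BX S_WK S_STR S_PF)
open Pool.Agent.N783.PF (Ht dsc Weak)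
open Pool.Agent.N951.PF (ht_pol bz_coeff eq_pol pol_inj)

theorem tail (h0 : Pool.Agent.H458.AU.S_SMLR) (h1 : Pool.Agent.N352.PF.S_BX)
    (h2 : Pool.Agent.N352.PF.S_STR) (h3 : Pool.Agent.N352.PF.S_WK)
    (h4 : Pool.Agent.N352.PF.S_PF) : Pool.Agent.H458.AU.S_TAIL := by
  intro F _ _ ε hε
  obtain ⟨C₁, hC₁, hBX⟩ := h1 F 1
  obtain ⟨R₀, hR₀⟩ := exists_nat_ge (2 * (C₁ : ℝ) / ε)
  obtain ⟨M₀, C₂, hC₂, hM⟩ := h0 F 1 (max R₀ 1) le_rfl (le_max_right _ _)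
  obtain ⟨B₁, hB₁⟩ := h2 F 1 le_rfl (ε / 2) (by positivity)
  refine ⟨max M₀ (6 ^ dg F), max B₁ (max (C₁ * 1) (C₂ * 1)), fun B hB => ?_⟩
  have hBB1 : B₁ ≤ B := (le_max_left _ _).trans hB
  have hBC1 : C₁ * 1 ≤ B := ((le_max_left _ _).trans (le_max_right _ _)).trans hB
  have hBC2 : C₂ * 1 ≤ B := ((le_max_right _ _).trans (le_max_right _ _)).trans hB
  obtain ⟨hfin, -, hcard⟩ := hBX B 1 (fun _ => 0) one_pos hBC1
  have hsml := hM B 1 (fun _ => 0) one_pos hBC2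
  have hstr := hB₁ B hBB1
  have hsub : Bz F 1 B ⊆ Bx 1 B 1 (fun _ => 0) := by
    intro a ha
    exact ⟨ha, fun j => by simp⟩
  have hBz : (Bz F 1 B).Finite := hfin.subset hsub
  have hHt : {f : (𝓞 F)[X] | Ht 1 B f} ⊆ pol '' Bz F 1 B := by
    intro f hf
    exact ⟨_, bz_coeff hf, (eq_pol hf).symm⟩
  refine ⟨(hBz.image _).subset hHt, ?_⟩
  set U := Bx 1 B 1 (fun _ => (0 : 𝓞 F)) with hU
  set U1 := {a ∈ U | ∃ v : HeightOneSpectrum (𝓞 F), M₀ < nv v ∧ nv v ^ 2 < B ^ dg F ∧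
    ((1 : ℕ) : 𝓞 F) ∉ v.asIdeal ∧ dis a ∈ v.asIdeal ^ 2} with hU1
  set U2 := {a ∈ Bz F 1 B | ∃ v : HeightOneSpectrum (𝓞 F), B ^ dg F ≤ nv v ^ 2 ∧
    dis a ∈ v.asIdeal ∧ D2 a ∈ v.asIdeal} with hU2
  have hU1f : U1.Finite := hfin.subset (Set.sep_subset _ _)
  have hU2f : U2.Finite := hBz.subset (Set.sep_subset _ _)
  have key : {f : (𝓞 F)[X] | Ht 1 B f ∧ ∃ v : HeightOneSpectrum (𝓞 F),
      max M₀ (6 ^ dg F) < nv v ∧ dsc 1 f ∈ v.asIdeal ^ 2 ∧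
      ¬ (B ^ Module.finrank ℚ F ≤ Ideal.absNorm v.asIdeal ^ 2 ∧ Weak v.asIdeal f)} ⊆
      pol '' (U1 ∪ U2) := by
    rintro f ⟨hf, v, hv1, hv2, hv3⟩
    obtain ⟨a, ha⟩ : ∃ a : Fin (2 * 1) → 𝓞 F, a = fun j : Fin (2 * 1) => f.coeff j := ⟨_, rfl⟩
    have haf : f = pol a := by
      rw [ha]
      exact eq_pol hf
    have haB : a ∈ Bz F 1 B := by
      rw [ha]
      exact bz_coeff hf
    rw [haf] at hv2 hv3
    have hd : dis a ∈ v.asIdeal ^ 2 := hv2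
    refine ⟨a, ?_, haf.symm⟩
    by_cases hB2 : B ^ dg F ≤ nv v ^ 2
    · by_cases hD : D2 a ∈ v.asIdeal
      · exact Or.inr ⟨haB, v, hB2, Ideal.pow_le_self two_ne_zero hd, hD⟩
      · exfalso
        have hfac : ((2 * 1 + 1).factorial : 𝓞 F) ∉ v.asIdeal := by
          intro h
          have e1 : (2 * 1 + 1).factorial = 6 := by decide
          rw [e1] at h
          have e2 := (h4 F).2.1 v 6 (by norm_num) h
          have e3 := (le_max_right M₀ (6 ^ dg F)).trans_lt hv1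
          omega
        exact hv3 ⟨hB2, h3 F 1 v le_rfl hfac a hd hD⟩
    · refine Or.inl ⟨hsub haB, v, (le_max_left _ _).trans_lt hv1, not_le.1 hB2, ?_, hd⟩
      intro h
      rw [Nat.cast_one] at h
      exact v.isPrime.ne_top ((Ideal.eq_top_iff_one _).2 h)
  have hc1 := (Set.ncard_le_ncard key ((hU1f.union hU2f).image _)).trans
    ((Set.ncard_image_le (hU1f.union hU2f)).trans (Set.ncard_union_le U1 U2))
  have hc2 : (({f : (𝓞 F)[X] | Ht 1 B f ∧ ∃ v : HeightOneSpectrum (𝓞 F),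
      max M₀ (6 ^ dg F) < nv v ∧ dsc 1 f ∈ v.asIdeal ^ 2 ∧
      ¬ (B ^ Module.finrank ℚ F ≤ Ideal.absNorm v.asIdeal ^ 2 ∧ Weak v.asIdeal f)}.ncard : ℝ)) ≤
      (U1.ncard : ℝ) + (U2.ncard : ℝ) := by exact_mod_cast hc1
  have hdd : dg F * dd 1 = 5 * dg F := by
    have e1 : dd 1 = 5 := by decide
    rw [e1, mul_comm]
  rw [hdd] at hstr hcard
  rw [one_pow, mul_one] at hcard
  have hX : (0 : ℝ) ≤ (B : ℝ) ^ (5 * dg F) := by positivity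
  have hRpos : (0 : ℝ) < ((max R₀ 1 : ℕ) : ℝ) := by
    have e1 : 1 ≤ max R₀ 1 := le_max_right _ _
    exact_mod_cast e1
  have hRge : 2 * (C₁ : ℝ) ≤ ε * ((max R₀ 1 : ℕ) : ℝ) := by
    have e1 : ((R₀ : ℕ) : ℝ) ≤ ((max R₀ 1 : ℕ) : ℝ) := by exact_mod_cast le_max_left R₀ 1
    have e2 := hR₀.trans e1
    rw [div_le_iff₀ hε] at e2
    linarith
  have e3 : ((max R₀ 1 : ℕ) : ℝ) * (U1.ncard : ℝ) ≤ (C₁ : ℝ) * (B : ℝ) ^ (5 * dg F) := by
    have e4 := hsml.trans hcard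
    exact_mod_cast e4
  have e5 : (U1.ncard : ℝ) ≤ ε / 2 * (B : ℝ) ^ (5 * dg F) := by
    have e6 : ((max R₀ 1 : ℕ) : ℝ) * (U1.ncard : ℝ) ≤
        ((max R₀ 1 : ℕ) : ℝ) * (ε / 2 * (B : ℝ) ^ (5 * dg F)) := by
      have e7 : 2 * (C₁ : ℝ) * (B : ℝ) ^ (5 * dg F) ≤
          ε * ((max R₀ 1 : ℕ) : ℝ) * (B : ℝ) ^ (5 * dg F) := mul_le_mul_of_nonneg_right hRge hX
      nlinarith [e3, e7]
    exact le_of_mul_le_mul_left e6 hRpos
  calc _ ≤ (U1.ncard : ℝ) + (U2.ncard : ℝ) := hc2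
    _ ≤ ε / 2 * (B : ℝ) ^ (5 * dg F) + ε / 2 * (B : ℝ) ^ (5 * dg F) := add_le_add e5 hstr
    _ = ε * (B : ℝ) ^ (5 * Module.finrank ℚ F) := by ring

end Pool.Agent.H294.AU458
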